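import Pool.Agent.Run7.h275.S.I0

/-!
# The generic fibre of a glued model, general lemmas
-/

set_option autoImplicit false

namespace Pool.Agent.Run7.h232.RB

open AlgebraicGeometry CategoryTheory CategoryTheory.Limits Pool.Agent.Run7.h275.SC

/-- Dominance can be tested after an open immersion. -/
lemma dom_of_open {G P T : Scheme.{0}} (q : G ⟶ P) (p : P ⟶ T) [IsOpenImmersion p]
    (h : IsDominant (q ≫ p)) : IsDominant q := by
  constructor
  have h1 : DenseRange (q ≫ p) := h.denseRange
  intro x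
  rw [mem_closure_iff]
  intro U hU hx
  have h2 : IsOpen (p '' U) := p.isOpenEmbedding.isOpenMap U hU
  obtain ⟨y, ⟨u, hu, huy⟩, ⟨g, hg⟩⟩ := mem_closure_iff.1 (h1 (p x)) (p '' U) h2 ⟨x, hx, rfl⟩
  have h3 : p (q g) = p u := by
    rw [huy, ← hg, Scheme.Hom.comp_apply]
  have h4 : q g = u := p.isOpenEmbedding.injective h3
  exact ⟨q g, by rw [h4]; exact hu, ⟨g, rfl⟩⟩

/-- Gluing of a morphism from its restrictions to reduced charts with a common dense point. -/
lemma glue {X Y S G : Scheme.{0}} {I : Type} (a : X ⟶ S) (b : Y ⟶ S) [IsSeparated b]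
    (T : I → Scheme.{0}) [∀ i, IsReduced (T i)] (γ : ∀ i, G ⟶ T i) [∀ i, IsDominant (γ i)]
    (j : ∀ i, T i ⟶ X) (k : ∀ i, T i ⟶ Y) [hj : ∀ i, IsOpenImmersion (j i)]
    (hcov : ∀ x : X, ∃ i z, j i z = x) (hab : ∀ i, j i ≫ a = k i ≫ b)
    (gX : G ⟶ X) (hgX : ∀ i, γ i ≫ j i = gX) (gY : G ⟶ Y) (hgY : ∀ i, γ i ≫ k i = gY) :
    ∃ ψ : X ⟶ Y, ∀ i, j i ≫ ψ = k i := by
  let 𝒰 : X.OpenCover := Scheme.Cover.mkOfCovers I T j (fun x => hcov x) (fun i => hj i)
  have hf : ∀ i l : I, pullback.fst (j i) (j l) ≫ k i = pullback.snd (j i) (j l) ≫ k l := by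
    intro i l
    let q : G ⟶ pullback (j i) (j l) := pullback.lift (γ i) (γ l) ((hgX i).trans (hgX l).symm)
    have : IsReduced (pullback (j i) (j l)) := isReduced_of_isOpenImmersion (pullback.fst (j i) (j l))
    have : IsDominant q := dom_of_open q (pullback.fst (j i) (j l)) (by rw [pullback.lift_fst]; infer_instance)
    refine ext_of_isDominant_of_isSeparated b ?_ q ?_
    · rw [Category.assoc, Category.assoc, ← hab, ← hab, pullback.condition_assoc]
    · rw [pullback.lift_fst_assoc, pullback.lift_snd_assoc, hgY, hgY]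
  exact ⟨𝒰.glueMorphisms (fun i => k i) (fun i l => hf i l), fun i => 𝒰.ι_glueMorphisms _ _ i⟩

/-- Morphisms which agree on the charts of an open cover are equal. -/
lemma cover_ext {X Y : Scheme.{0}} {I : Type} (T : I → Scheme.{0}) (j : ∀ i, T i ⟶ X)
    [hj : ∀ i, IsOpenImmersion (j i)] (hcov : ∀ x : X, ∃ i z, j i z = x) (a b : X ⟶ Y)
    (h : ∀ i, j i ≫ a = j i ≫ b) : a = b := by
  let 𝒰 : X.OpenCover := Scheme.Cover.mkOfCovers I T j (fun x => hcov x) (fun i => hj i)
  exact 𝒰.hom_ext a b (fun i => h i)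

/-- Two separated schemes over a base with the same charts are isomorphic. -/
lemma iso_of_charts {X Y S G : Scheme.{0}} {I : Type} (a : X ⟶ S) (b : Y ⟶ S) [IsSeparated a] [IsSeparated b]
    (T : I → Scheme.{0}) [∀ i, IsReduced (T i)] (γ : ∀ i, G ⟶ T i) [∀ i, IsDominant (γ i)]
    (j : ∀ i, T i ⟶ X) (k : ∀ i, T i ⟶ Y) [hj : ∀ i, IsOpenImmersion (j i)] [hk : ∀ i, IsOpenImmersion (k i)]
    (hcX : ∀ x : X, ∃ i z, j i z = x) (hcY : ∀ y : Y, ∃ i z, k i z = y) (hab : ∀ i, j i ≫ a = k i ≫ b)
    (gX : G ⟶ X) (hgX : ∀ i, γ i ≫ j i = gX) (gY : G ⟶ Y) (hgY : ∀ i, γ i ≫ k i = gY) :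
    ∃ φ : X ≅ Y, (∀ i, j i ≫ φ.hom = k i) ∧ φ.hom ≫ b = a := by
  obtain ⟨ψ, hψ⟩ := glue a b T γ j k hcX hab gX hgX gY hgY
  obtain ⟨χ, hχ⟩ := glue b a T γ k j hcY (fun i => (hab i).symm) gY hgY gX hgX
  refine ⟨⟨ψ, χ, ?_, ?_⟩, hψ, ?_⟩
  · refine cover_ext T j hcX _ _ (fun i => ?_)
    rw [← Category.assoc, hψ, hχ, Category.comp_id]
  · refine cover_ext T k hcY _ _ (fun i => ?_)
    rw [← Category.assoc, hχ, hψ, Category.comp_id]
  · refine cover_ext T j hcX _ _ (fun i => ?_)
    rw [← Category.assoc, hψ, hab]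

section

variable {F : Type} [Field F]

lemma isDominant_gen (B : Subring F) : IsDominant (gen B) := by
  constructor
  have h : DenseRange (PrimeSpectrum.comap B.subtype) := by
    rw [PrimeSpectrum.denseRange_comap_iff_ker_le_nilRadical]
    have : RingHom.ker B.subtype = ⊥ := (RingHom.injective_iff_ker_eq_bot _).1 Subtype.val_injective
    rw [this]
    exact bot_le
  exact h

lemma gen_inc {B C : Subring F} (h : B ≤ C) : gen C ≫ inc h = gen B := by
  rw [gen, inc, ← Spec.map_comp]
  rfl

/-- Morphisms to an affine scheme are determined at the generic point. -/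
lemma eq_of_gen {O : Type} [CommRing O] (B : Subring F) (a b : Sp B ⟶ Spec (CommRingCat.of O))
    (h : gen B ≫ a = gen B ≫ b) : a = b := by
  have ha : a = Spec.map (Spec.preimage a) := (Spec.map_preimage a).symm
  have hb : b = Spec.map (Spec.preimage b) := (Spec.map_preimage b).symm
  rw [ha, hb] at h ⊢
  rw [gen, ← Spec.map_comp, ← Spec.map_comp] at h
  have h2 := Spec.map_injective h
  congr 1
  ext x
  have h3 := congrArg (fun φ => φ.hom x) h2
  simpa using h3

/-- The structure morphism of the spectrum of a subring. -/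
noncomputable def st (R : Type) [CommRing R] [Algebra R F] (B : Subring F) (h : ∀ r : R, algebraMap R F r ∈ B) :
    Sp B ⟶ Spec (CommRingCat.of R) :=
  Spec.map (CommRingCat.ofHom ((algebraMap R F).codRestrict B h))

lemma gen_st (R : Type) [CommRing R] [Algebra R F] (B : Subring F) (h : ∀ r : R, algebraMap R F r ∈ B) :
    gen B ≫ st R B h = Spec.map (CommRingCat.ofHom (algebraMap R F)) := by
  rw [gen, st, ← Spec.map_comp]
  rfl

lemma mem_of_gen (R : Type) [CommRing R] [Algebra R F] (B : Subring F) (a : Sp B ⟶ Spec (CommRingCat.of R))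
    (h : gen B ≫ a = Spec.map (CommRingCat.ofHom (algebraMap R F))) (r : R) : algebraMap R F r ∈ B := by
  rw [← Spec.map_preimage a, gen, ← Spec.map_comp] at h
  have h3 := Spec.map_injective h
  have h4 := congrArg (fun φ => φ.hom r) h3
  have h5 : ((Spec.preimage a).hom r : F) = algebraMap R F r := by simpa using h4
  rw [← h5]
  exact ((Spec.preimage a).hom r).2

/-- A prime ideal of a subring is the centre of a valuation ring. -/
lemma exists_centre (D : Subring F) (z : Sp D) :
    ∃ (V : ValuationSubring F) (h : D ≤ V.toSubring) (v : Sp V.toSubring), inc h v = z := by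
  let z' : PrimeSpectrum D := z
  let P : Ideal D := z'.asIdeal
  have hP : P.IsPrime := z'.isPrime
  let f : Localization.AtPrime P →+* F := IsLocalization.lift (M := P.primeCompl) (g := D.subtype) (by
    intro y
    refine IsUnit.mk0 _ ?_
    intro h0
    have : (y : D) = 0 := Subtype.ext h0
    exact y.2 (by rw [this]; exact P.zero_mem))
  obtain ⟨V, h, hloc⟩ := IsLocalRing.exists_factor_valuationRing f
  have hf : ∀ d : D, f (algebraMap D (Localization.AtPrime P) d) = d := fun d => IsLocalization.lift_eq _ d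
  have hD : D ≤ V.toSubring := fun d hd => by
    have := h (algebraMap D (Localization.AtPrime P) ⟨d, hd⟩)
    rw [hf] at this
    exact this
  have hlr : IsLocalRing V.toSubring := inferInstanceAs (IsLocalRing V)
  let w : PrimeSpectrum V.toSubring := IsLocalRing.closedPoint V.toSubring
  refine ⟨V, hD, w, ?_⟩
  refine PrimeSpectrum.ext (R := D) ?_
  change Ideal.comap (Subring.inclusion hD) (IsLocalRing.maximalIdeal V.toSubring) = P
  have e1 : Subring.inclusion hD = (f.codRestrict V.toSubring h).comp (algebraMap D (Localization.AtPrime P)) := by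
    ext d
    exact (hf d).symm
  rw [e1, ← Ideal.comap_comap]
  have e2 : Ideal.comap (f.codRestrict V.toSubring h) (IsLocalRing.maximalIdeal V.toSubring) =
      IsLocalRing.maximalIdeal (Localization.AtPrime P) :=
    IsLocalRing.maximalIdeal_comap (f.codRestrict V.toSubring h)
  rw [e2]
  exact Localization.AtPrime.under_maximalIdeal

end

end Pool.Agent.Run7.h232.RB
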