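import Pool.Agent.Run7.h275.S.I2
import Pool.Agent.Run7.h232.RB.GfbA

/-!
# The generic fibre of a glued model
-/

set_option autoImplicit false

namespace Pool.Agent.Run7.h232.RB

open AlgebraicGeometry CategoryTheory CategoryTheory.Limits Pool.Agent.Run7.h275.SC

variable {O E F : Type} [CommRing O] [IsDomain O] [Field E] [Algebra O E] [IsFractionRing O E] [Field F]
  [Algebra O F] [Algebra E F] [IsScalarTower O E F]

/-- The subring of all elements which are fractions of `B` with a denominator in `O`. -/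
def sat (O : Type) [CommRing O] [IsDomain O] [Algebra O F] (B : Subring F) (hO : ∀ o : O, algebraMap O F o ∈ B) :
    Subring F where
  carrier := {z | ∃ o : O, o ≠ 0 ∧ algebraMap O F o * z ∈ B}
  mul_mem' := by
    rintro x y ⟨a, ha, hx⟩ ⟨b, hb, hy⟩
    refine ⟨a * b, mul_ne_zero ha hb, ?_⟩
    have := B.mul_mem hx hy
    rw [map_mul]
    have e : algebraMap O F a * algebraMap O F b * (x * y) = algebraMap O F a * x * (algebraMap O F b * y) := by ring
    rw [e]
    exact this
  one_mem' := ⟨1, one_ne_zero, by rw [map_one, one_mul]; exact B.one_mem⟩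
  add_mem' := by
    rintro x y ⟨a, ha, hx⟩ ⟨b, hb, hy⟩
    refine ⟨a * b, mul_ne_zero ha hb, ?_⟩
    have h1 := B.add_mem (B.mul_mem (hO b) hx) (B.mul_mem (hO a) hy)
    rw [map_mul]
    have e : algebraMap O F a * algebraMap O F b * (x + y) =
        algebraMap O F b * (algebraMap O F a * x) + algebraMap O F a * (algebraMap O F b * y) := by ring
    rw [e]
    exact h1
  zero_mem' := ⟨1, one_ne_zero, by rw [mul_zero]; exact B.zero_mem⟩
  neg_mem' := by
    rintro x ⟨a, ha, hx⟩
    refine ⟨a, ha, ?_⟩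
    rw [mul_neg]
    exact B.neg_mem hx

lemma le_sat (B : Subring F) (hO : ∀ o : O, algebraMap O F o ∈ B) : B ≤ sat O B hO := fun x hx =>
  ⟨1, one_ne_zero, by rw [map_one, one_mul]; exact hx⟩

lemma E_sat (B : Subring F) (hO : ∀ o : O, algebraMap O F o ∈ B) (e : E) : algebraMap E F e ∈ sat O B hO := by
  obtain ⟨⟨a, b⟩, hab⟩ := IsLocalization.surj (nonZeroDivisors O) e
  refine ⟨b, nonZeroDivisors.ne_zero b.2, ?_⟩
  have : algebraMap O F b * algebraMap E F e = algebraMap O F a := by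
    rw [IsScalarTower.algebraMap_apply O E F, IsScalarTower.algebraMap_apply O E F, ← map_mul, mul_comm, hab]
  rw [this]
  exact hO a

/-- The generic fibre of a chart. -/
lemma isPb (B A : Subring F) (hBA : B ≤ A) (hO : ∀ o : O, algebraMap O F o ∈ B)
    (hE : ∀ e : E, algebraMap E F e ∈ A) (hl : ∀ a ∈ A, ∃ o : O, o ≠ 0 ∧ algebraMap O F o * a ∈ B) :
    IsPullback (inc hBA) (st E A hE) (st O B hO) (Spec.map (CommRingCat.ofHom (algebraMap O E))) := by
  let _ : Algebra B A := (Subring.inclusion hBA).toAlgebra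
  have hloc : IsLocalization ((nonZeroDivisors O).map ((algebraMap O F).codRestrict B hO)) A := by
    refine (isLocalization_iff _ _).2 ⟨?_, ?_, ?_⟩
    · rintro ⟨_, ⟨o, ho, rfl⟩⟩
      have ho' : o ≠ 0 := nonZeroDivisors.ne_zero ho
      have h1 : algebraMap O E o ≠ 0 := fun h => ho' ((IsFractionRing.injective O E) (by rw [h, map_zero]))
      refine IsUnit.of_mul_eq_one (⟨algebraMap E F (algebraMap O E o)⁻¹, hE _⟩ : A) ?_
      apply Subtype.ext
      change algebraMap O F o * algebraMap E F (algebraMap O E o)⁻¹ = 1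
      rw [IsScalarTower.algebraMap_apply O E F, ← map_mul, mul_inv_cancel₀ h1, map_one]
    · intro z
      obtain ⟨o, ho, hz⟩ := hl z z.2
      refine ⟨⟨⟨_, hz⟩, ⟨_, ⟨o, mem_nonZeroDivisors_of_ne_zero ho, rfl⟩⟩⟩, ?_⟩
      apply Subtype.ext
      change (z : F) * algebraMap O F o = algebraMap O F o * z
      rw [mul_comm]
    · intro x y hxy
      refine ⟨1, ?_⟩
      have : x = y := by
        apply Subtype.ext
        exact congrArg (fun w : A => (w : F)) hxy
      rw [this]
  refine isPullback_SpecMap_of_isPushout _ _ _ _ ?_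
  exact CommRingCat.isPushout_of_isLocalization (R := O) (S := B) (Rₘ := E) (Sₘ := A)
    ((algebraMap O F).codRestrict B hO) ((algebraMap E F).codRestrict A hE) (by
      ext o
      exact (IsScalarTower.algebraMap_apply O E F o).symm) (nonZeroDivisors O)

section

variable {Y : Scheme.{0}} (g : Y ⟶ Spec (CommRingCat.of O)) (B A : Subring F) (hBA : B ≤ A)
  (hO : ∀ o : O, algebraMap O F o ∈ B) (hE : ∀ e : E, algebraMap E F e ∈ A) (ι : Sp B ⟶ Y) (hι : ι ≫ g = st O B hO)

omit [IsDomain O] [IsFractionRing O E] in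
include hι in
lemma kc_cond : (inc hBA ≫ ι) ≫ g = st E A hE ≫ Spec.map (CommRingCat.ofHom (algebraMap O E)) := by
  apply eq_of_gen
  rw [Category.assoc, hι, ← Category.assoc, gen_inc, gen_st, ← Category.assoc, gen_st, ← Spec.map_comp,
    ← CommRingCat.ofHom_comp, ← IsScalarTower.algebraMap_eq]

/-- The chart of the generic fibre. -/
noncomputable def kc : Sp A ⟶ pullback g (Spec.map (CommRingCat.ofHom (algebraMap O E))) :=
  pullback.lift (inc hBA ≫ ι) (st E A hE) (kc_cond g B A hBA hO hE ι hι)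

lemma kc_pb (hl : ∀ a ∈ A, ∃ o : O, o ≠ 0 ∧ algebraMap O F o * a ∈ B) :
    IsPullback (kc g B A hBA hO hE ι hι) (inc hBA) (pullback.fst _ _) ι := by
  have t : IsPullback (pullback.snd g (Spec.map (CommRingCat.ofHom (algebraMap O E)))) (pullback.fst _ _)
      (Spec.map (CommRingCat.ofHom (algebraMap O E))) g := (IsPullback.of_hasPullback _ _).flip
  refine IsPullback.of_right ?_ (pullback.lift_fst _ _ _) t
  rw [hι]
  have e : kc g B A hBA hO hE ι hι ≫ pullback.snd _ _ = st E A hE := pullback.lift_snd _ _ _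
  rw [e]
  exact (isPb B A hBA hO hE hl).flip

lemma kc_open (hl : ∀ a ∈ A, ∃ o : O, o ≠ 0 ∧ algebraMap O F o * a ∈ B) [IsOpenImmersion ι] :
    IsOpenImmersion (kc g B A hBA hO hE ι hι) :=
  MorphismProperty.of_isPullback (P := @IsOpenImmersion) (kc_pb g B A hBA hO hE ι hι hl).flip inferInstance

lemma kc_surj (hl : ∀ a ∈ A, ∃ o : O, o ≠ 0 ∧ algebraMap O F o * a ∈ B)
    (y : ↥(pullback g (Spec.map (CommRingCat.ofHom (algebraMap O E))))) (x : Sp B)
    (hx : ι x = pullback.fst g (Spec.map (CommRingCat.ofHom (algebraMap O E))) y) :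
    ∃ z, kc g B A hBA hO hE ι hι z = y := by
  obtain ⟨z, hz, -⟩ := Scheme.exists_preimage_of_isPullback (kc_pb g B A hBA hO hE ι hι hl) y x hx.symm
  exact ⟨z, hz⟩

end

theorem t_GFB : S_GFB := by
  intro O E F _ _ _ _ _ _ _ _ _ 𝓑 h𝓑 Y _ g ι hY hop hg hcomp hcov X _ f g₀ n A C j hC hCA hl hE hj hgj hcX hf hfg hV
  have hO : ∀ B ∈ 𝓑, ∀ o : O, algebraMap O F o ∈ B := fun B hB o => mem_of_gen O B (ι B hB ≫ g) (hg B hB) o
  have hι : ∀ B (hB : B ∈ 𝓑), ι B hB ≫ g = st O B (hO B hB) := fun B hB => by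
    apply eq_of_gen
    rw [hg, gen_st]
  have hgg : ∀ B C (hB : B ∈ 𝓑) (hC : C ∈ 𝓑), gen B ≫ ι B hB = gen C ≫ ι C hC := by
    intro B C hB hC
    have hS := h𝓑.sup B hB C hC
    rw [← gen_inc (le_sup_left : B ≤ B ⊔ C), Category.assoc, hcomp B (B ⊔ C) hB hS le_sup_left,
      ← gen_inc (le_sup_right : C ≤ B ⊔ C), Category.assoc, hcomp C (B ⊔ C) hC hS le_sup_right]
  have hsg : IsSeparated g := by
    have := hY
    infer_instance
  obtain ⟨B₀, hB₀⟩ := h𝓑.ne
  let e : Spec (CommRingCat.of E) ⟶ Spec (CommRingCat.of O) := Spec.map (CommRingCat.ofHom (algebraMap O E))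
  let γ : Spec (CommRingCat.of F) ⟶ pullback g e :=
    gen (sat O B₀ (hO B₀ hB₀)) ≫ kc g B₀ _ (le_sat B₀ (hO B₀ hB₀)) (hO B₀ hB₀) (E_sat B₀ (hO B₀ hB₀)) (ι B₀ hB₀) (hι B₀ hB₀)
  have hγ : ∀ (B A' : Subring F) (hB : B ∈ 𝓑) (hBA : B ≤ A') (hE' : ∀ e : E, algebraMap E F e ∈ A'),
      gen A' ≫ kc g B A' hBA (hO B hB) hE' (ι B hB) (hι B hB) = γ := by
    intro B A' hB hBA hE'
    apply pullback.hom_ext
    · simp only [γ, kc, Category.assoc, pullback.lift_fst]
      rw [← Category.assoc, gen_inc, ← Category.assoc, gen_inc]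
      exact hgg _ _ _ _
    · simp only [γ, kc, Category.assoc, pullback.lift_snd]
      rw [gen_st, gen_st]
  let k : ∀ i, Sp (A i) ⟶ pullback g e := fun i =>
    kc g (C i) (A i) (hCA i) (hO _ (hC i)) (hE i) (ι (C i) (hC i)) (hι _ (hC i))
  have hop' : ∀ i, IsOpenImmersion (k i) := fun i => by
    have := hop (C i) (hC i)
    exact kc_open g (C i) (A i) (hCA i) (hO _ (hC i)) (hE i) (ι (C i) (hC i)) (hι _ (hC i)) (hl i)
  have hdom : ∀ i, IsDominant (gen (A i)) := fun i => isDominant_gen (A i)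
  have hcY : ∀ y : ↥(pullback g e), ∃ i z, k i z = y := by
    intro y
    obtain ⟨B, hB, x, hx⟩ := hcov (pullback.fst g e y)
    obtain ⟨z, hz⟩ := kc_surj g B (sat O B (hO B hB)) (le_sat B (hO B hB)) (hO B hB) (E_sat B (hO B hB)) (ι B hB)
      (hι B hB) (fun a ha => ha) y x hx
    obtain ⟨V, hDV, v, hv⟩ := exists_centre (sat O B (hO B hB)) z
    obtain ⟨i, hi⟩ := hV B hB V ((le_sat B (hO B hB)).trans hDV) (fun e' => hDV (E_sat B (hO B hB) e'))
    refine ⟨i, inc hi v, ?_⟩
    have hs : IsSeparated (pullback.snd g e) := inferInstance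
    have := isDominant_gen V.toSubring
    have key : inc hDV ≫ kc g B (sat O B (hO B hB)) (le_sat B (hO B hB)) (hO B hB) (E_sat B (hO B hB)) (ι B hB)
        (hι B hB) = inc hi ≫ k i := by
      refine ext_of_isDominant_of_isSeparated (pullback.snd g e) ?_ (gen V.toSubring) ?_
      · apply eq_of_gen
        simp only [← Category.assoc, gen_inc]
        rw [hγ, hγ]
      · simp only [← Category.assoc, gen_inc]
        rw [hγ, hγ]
    rw [← hz, ← hv, ← Scheme.Hom.comp_apply, ← Scheme.Hom.comp_apply, key]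
  have hfj : ∀ i, j i ≫ f = k i ≫ pullback.snd g e := by
    intro i
    have e1 : k i ≫ pullback.snd g e = st E (A i) (hE i) := pullback.lift_snd _ _ _
    rw [e1]
    apply eq_of_gen
    rw [← Category.assoc, hgj, hfg, gen_st]
  have hs : IsSeparated (pullback.snd g e) := inferInstance
  obtain ⟨φ, -, hφ⟩ := iso_of_charts f (pullback.snd g e) (fun i => Sp (A i)) (fun i => gen (A i)) j k hcX hcY hfj
    g₀ hgj γ (fun i => hγ (C i) (A i) (hC i) (hCA i) (hE i))
  exact ⟨φ, hφ⟩

end Pool.Agent.Run7.h232.RB
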